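import Pool.Agent.H867.FT.Stm

set_option autoImplicit false

namespace Pool.Agent.H728.FT867

/-- a lattice in `ℚ³` containing `ℤ³` -/
structure Lat (Λ : ℚ → ℚ → ℚ → Prop) : Prop where
  add : ∀ {x y z x' y' z' : ℚ}, Λ x y z → Λ x' y' z' → Λ (x + x') (y + y') (z + z')
  neg : ∀ {x y z : ℚ}, Λ x y z → Λ (-x) (-y) (-z)
  e1 : Λ 1 0 0
  e2 : Λ 0 1 0
  e3 : Λ 0 0 1

variable {Λ : ℚ → ℚ → ℚ → Prop}

lemma Lat.zero (h : Lat Λ) : Λ 0 0 0 := by
  have := h.add h.e1 (h.neg h.e1)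
  simpa using this

lemma Lat.nsmul (h : Lat Λ) {x y z : ℚ} (hx : Λ x y z) (m : ℕ) : Λ (m * x) (m * y) (m * z) := by
  induction m with
  | zero => simpa using h.zero
  | succ m ih =>
    have := h.add ih hx
    push_cast
    rw [add_mul, add_mul, add_mul, one_mul, one_mul, one_mul]
    exact this

lemma Lat.zsmul (h : Lat Λ) {x y z : ℚ} (hx : Λ x y z) (m : ℤ) : Λ (m * x) (m * y) (m * z) := by
  obtain ⟨n, rfl | rfl⟩ := m.eq_nat_or_neg
  · have := h.nsmul hx n
    push_cast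
    exact this
  · have := h.neg (h.nsmul hx n)
    push_cast
    rw [neg_mul, neg_mul, neg_mul]
    exact this

lemma Lat.shift (h : Lat Λ) {x y z : ℚ} (hx : Λ x y z) (i j l : ℤ) :
    Λ (x + i) (y + j) (z + l) := by
  have h1 := h.zsmul h.e1 i
  have h2 := h.zsmul h.e2 j
  have h3 := h.zsmul h.e3 l
  have := h.add (h.add (h.add hx h1) h2) h3
  simpa using this

lemma Lat.swap (h : Lat Λ) : Lat (fun x y z => Λ x z y) :=
  ⟨fun h1 h2 => h.add h1 h2, fun h1 => h.neg h1, h.e1, h.e3, h.e2⟩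

/-- (i) -/
lemma ints (h : Lat Λ) (hc : ∀ y : ℚ, Λ 0 y 0 → ∃ m : ℤ, y = m)
    (he : ∀ z : ℚ, Λ 0 0 z → ∃ m : ℤ, z = m)
    (N1 : ∀ y z : ℚ, Λ 0 y z → 0 < y → y < 1 → 0 < z → z < 1 → False) {y z : ℚ}
    (hyz : Λ 0 y z) : (∃ m : ℤ, y = m) ∧ ∃ m : ℤ, z = m := by
  have h1 : Λ 0 (Int.fract y) (Int.fract z) := by
    have := h.shift hyz 0 (-⌊y⌋) (-⌊z⌋)
    push_cast at this
    rw [add_zero, ← sub_eq_add_neg, ← sub_eq_add_neg] at this
    exact this
  have key : Int.fract y = 0 ∧ Int.fract z = 0 := by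
    by_cases hy : Int.fract y = 0
    · refine ⟨hy, ?_⟩
      rw [hy] at h1
      obtain ⟨m, hm⟩ := he _ h1
      rw [Int.fract_eq_iff]
      refine ⟨le_refl _, one_pos, ?_⟩
      refine ⟨m + ⌊z⌋, ?_⟩
      have := Int.fract_add_floor z
      push_cast
      rw [sub_zero]
      linarith
    · by_cases hz : Int.fract z = 0
      · refine absurd ?_ hy
        rw [hz] at h1
        obtain ⟨m, hm⟩ := hc _ h1
        rw [Int.fract_eq_iff]
        refine ⟨le_refl _, one_pos, ?_⟩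
        refine ⟨m + ⌊y⌋, ?_⟩
        have := Int.fract_add_floor y
        push_cast
        rw [sub_zero]
        linarith
      · exact (N1 _ _ h1 (lt_of_le_of_ne (Int.fract_nonneg y) (Ne.symm hy)) (Int.fract_lt_one y)
          (lt_of_le_of_ne (Int.fract_nonneg z) (Ne.symm hz)) (Int.fract_lt_one z)).elim
  refine ⟨⟨⌊y⌋, ?_⟩, ⟨⌊z⌋, ?_⟩⟩
  · have := Int.fract_add_floor y
    rw [key.1, zero_add] at this
    exact this.symm
  · have := Int.fract_add_floor z
    rw [key.2, zero_add] at this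
    exact this.symm

lemma ceil_cases (q : ℚ) : (∃ m : ℤ, q = m) ∨ (0 < (⌈q⌉ : ℚ) - q ∧ (⌈q⌉ : ℚ) - q < 1) := by
  by_cases h : (⌈q⌉ : ℚ) = q
  · exact Or.inl ⟨⌈q⌉, h.symm⟩
  · refine Or.inr ⟨?_, ?_⟩
    · have := Int.le_ceil q
      exact sub_pos.2 (lt_of_le_of_ne this (Ne.symm h))
    · have := Int.ceil_lt_add_one q
      linarith

/-- the last step of the proof, with `t = (1/k', t₁, t₂)` and `t₁` an integer -/
lemma last (h : Lat Λ) (hc : ∀ y : ℚ, Λ 0 y 0 → ∃ m : ℤ, y = m)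
    (he : ∀ z : ℚ, Λ 0 0 z → ∃ m : ℤ, z = m)
    (N1 : ∀ y z : ℚ, Λ 0 y z → 0 < y → y < 1 → 0 < z → z < 1 → False)
    (n k β₁ β₂ : ℤ) (hn : 0 < n) (hk : 0 < k) (h1 : 0 < β₁) (h2 : 0 < β₂)
    (hb : Λ (-(n : ℚ) / k) (β₁ / k) (β₂ / k)) (hlt : β₁ + β₂ < n + k)
    (N3 : ∀ x y z : ℚ, Λ (-(n : ℚ) / k * x) (β₁ / k * x + y) (β₂ / k * x + z) → 0 < x → x < 1 →
      0 < y → y < 1 → 0 < z → z < 1 → False)
    (k' : ℤ) (hk' : 0 < k') (t₁ t₂ : ℚ) (ht : Λ (1 / k') t₁ t₂)
    (hgen : ∀ x y z : ℚ, Λ x y z → ∃ m : ℤ, x = m / k') (hint : ∃ m : ℤ, t₁ = m) : False := by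
  have hkq : (0 : ℚ) < k := by exact_mod_cast hk
  have hkq' : (0 : ℚ) < k' := by exact_mod_cast hk'
  obtain ⟨m₁, hm₁⟩ := hint
  have ht' : Λ (1 / k') 0 t₂ := by
    have := h.shift ht 0 (-m₁) 0
    rw [hm₁] at this
    push_cast at this
    simpa using this
  obtain ⟨m, hm⟩ := hgen _ _ _ hb
  obtain ⟨n', hn'⟩ : ∃ n' : ℤ, n' = -m := ⟨_, rfl⟩
  have hnn : (n : ℚ) / k = n' / k' := by
    rw [hn']
    push_cast
    rw [neg_div] at hm ⊢
    linarith
  have hn'pos : (0 : ℚ) < n' := by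
    have h3 : (0 : ℚ) < (n : ℚ) / k := div_pos (by exact_mod_cast hn) hkq
    rw [hnn] at h3
    by_contra h4
    have : (n' : ℚ) / k' ≤ 0 := div_nonpos_of_nonpos_of_nonneg (not_lt.1 h4) hkq'.le
    linarith
  have hb2 : Λ 0 (β₁ / k) (β₂ / k + n' * t₂) := by
    have := h.add hb (h.zsmul ht' n')
    have e1 : -(n : ℚ) / k + n' * (1 / k') = 0 := by
      rw [neg_div, hnn]
      ring
    rw [e1] at this
    simpa using this
  obtain ⟨⟨b₁, hb₁⟩, ⟨b₂, hb₂⟩⟩ := ints h hc he N1 hb2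
  have hA : Λ 0 0 (k' * t₂) := by
    have := h.add (h.neg h.e1) (h.zsmul ht' k')
    have e1 : -(1 : ℚ) + k' * (1 / k') = 0 := by
      field_simp
      ring
    rw [e1] at this
    simpa using this
  obtain ⟨A, hA⟩ := he _ hA
  have b₁pos : (0 : ℚ) < b₁ := by
    rw [← hb₁]
    exact div_pos (by exact_mod_cast h1) hkq
  have hR : (0 : ℚ) < k' * b₂ - n' * A := by
    have e1 : (k' : ℚ) * b₂ - n' * A = k' * (β₂ / k) := by
      rw [← hb₂, ← hA]
      ring
    rw [e1]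
    exact mul_pos hkq' (div_pos (by exact_mod_cast h2) hkq)
  have hineq : (k' : ℚ) * b₁ + (k' * b₂ - n' * A) < n' + k' := by
    have e1 : (k' : ℚ) * b₁ + (k' * b₂ - n' * A) = k' * ((β₁ + β₂) / k) := by
      rw [← hb₂, ← hA, ← hb₁]
      ring
    have e2 : (n' : ℚ) + k' = k' * ((n + k) / k) := by
      have : ((n : ℚ) + k) / k = n' / k' + 1 := by
        rw [add_div, hnn, div_self hkq.ne']
      rw [this]
      field_simp
    rw [e1, e2]
    refine mul_lt_mul_of_pos_left ?_ hkq'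
    refine (div_lt_div_iff_of_pos_right hkq).2 ?_
    exact_mod_cast hlt
  have hdvd : (∃ s : ℤ, (b₁ : ℚ) = n' * s) ∨ ∃ s : ℤ, (b₂ : ℚ) = n' * s := by
    by_cases hn1 : n' = 1
    · left
      refine ⟨b₁, ?_⟩
      rw [hn1]
      push_cast
      ring
    · have hn2 : (1 : ℚ) < n' := by
        have h5 : (0 : ℤ) < n' := by exact_mod_cast hn'pos
        have : (1 : ℤ) < n' := by omega
        exact_mod_cast this
      rcases ceil_cases ((b₁ : ℚ) / n') with ⟨s, hs⟩ | ⟨c1, c2⟩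
      · left
        refine ⟨s, ?_⟩
        rw [← hs]
        field_simp
      · rcases ceil_cases ((b₂ : ℚ) / n') with ⟨s, hs⟩ | ⟨c3, c4⟩
        · right
          refine ⟨s, ?_⟩
          rw [← hs]
          field_simp
        · exfalso
          refine N3 (1 / n') _ _ ?_ (by positivity) ?_ c1 c2 c3 c4
          · have := h.shift (h.neg ht') 0 ⌈(b₁ : ℚ) / n'⌉ ⌈(b₂ : ℚ) / n'⌉
            have e1 : -(1 / (k' : ℚ)) + ((0 : ℤ) : ℚ) = -(n : ℚ) / k * (1 / n') := by
              rw [neg_div, hnn]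
              push_cast
              field_simp
              ring
            have e2 : -(0 : ℚ) + (⌈(b₁ : ℚ) / n'⌉ : ℚ) =
                β₁ / k * (1 / n') + ((⌈(b₁ : ℚ) / n'⌉ : ℚ) - b₁ / n') := by
              rw [hb₁]
              ring
            have e3 : -t₂ + (⌈(b₂ : ℚ) / n'⌉ : ℚ) =
                β₂ / k * (1 / n') + ((⌈(b₂ : ℚ) / n'⌉ : ℚ) - b₂ / n') := by
              have : (β₂ : ℚ) / k = b₂ - n' * t₂ := by linarith
              rw [this]
              field_simp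
              ring
            rw [e1, e2, e3] at this
            exact this
          · rw [div_lt_one hn'pos]
            exact hn2
  have i1 : (0 : ℤ) < n' := by exact_mod_cast hn'pos
  have i2 : (0 : ℤ) < b₁ := by exact_mod_cast b₁pos
  have i3 : (0 : ℤ) < k' * b₂ - n' * A := by exact_mod_cast hR
  have i4 : k' * b₁ + (k' * b₂ - n' * A) < n' + k' := by exact_mod_cast hineq
  rcases hdvd with ⟨s, hs⟩ | ⟨s, hs⟩
  · have hs' : b₁ = n' * s := by exact_mod_cast hs
    have hs1 : 0 < s := by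
      rw [hs'] at i2
      exact (mul_pos_iff_of_pos_left i1).1 i2
    have : n' ≤ b₁ := by
      rw [hs']
      nlinarith
    nlinarith [mul_le_mul_of_nonneg_left this hk'.le, mul_nonneg (sub_nonneg.2 (Int.add_one_le_iff.2 i1)) (sub_nonneg.2 (Int.add_one_le_iff.2 hk'))]
  · have hs' : b₂ = n' * s := by exact_mod_cast hs
    have e1 : k' * b₂ - n' * A = n' * (k' * s - A) := by
      rw [hs']
      ring
    rw [e1] at i3 i4
    have h6 : 0 < k' * s - A := (mul_pos_iff_of_pos_left i1).1 i3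
    nlinarith [mul_le_mul_of_nonneg_left (Int.add_one_le_iff.2 h6) i1.le,
      mul_le_mul_of_nonneg_left (Int.add_one_le_iff.2 i2) hk'.le]

/-- the contradiction in the case `n + k > β₁ + β₂` -/
lemma core (h : Lat Λ) (D : ℕ) (hD : 0 < D)
    (hden : ∀ x y z : ℚ, Λ x y z → ∃ m : ℤ, x = m / D)
    (hc : ∀ y : ℚ, Λ 0 y 0 → ∃ m : ℤ, y = m)
    (he : ∀ z : ℚ, Λ 0 0 z → ∃ m : ℤ, z = m)
    (N1 : ∀ y z : ℚ, Λ 0 y z → 0 < y → y < 1 → 0 < z → z < 1 → False)
    (N2 : ∀ x y z : ℚ, Λ x y z → 0 < x → x < 1 → 0 < y → y < 1 → 0 < z → z < 1 → False)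
    (n k β₁ β₂ : ℤ) (hn : 0 < n) (hk : 0 < k) (h1 : 0 < β₁) (h2 : 0 < β₂)
    (hb : Λ (-(n : ℚ) / k) (β₁ / k) (β₂ / k)) (hlt : β₁ + β₂ < n + k)
    (N3 : ∀ x y z : ℚ, Λ (-(n : ℚ) / k * x) (β₁ / k * x + y) (β₂ / k * x + z) → 0 < x → x < 1 →
      0 < y → y < 1 → 0 < z → z < 1 → False) : False := by
  classical
  have hDq : (0 : ℚ) < D := by exact_mod_cast hD
  have hex : ∃ m : ℕ, 0 < m ∧ ∃ y z : ℚ, Λ ((m : ℚ) / D) y z := by
    refine ⟨D, hD, 0, 0, ?_⟩
    rw [div_self hDq.ne']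
    exact h.e1
  obtain ⟨hm0, t₁, t₂, ht⟩ := Nat.find_spec hex
  have hmin := fun m => Nat.find_min (m := m) hex
  generalize Nat.find hex = m₀ at hm0 ht hmin
  have hm0q : (0 : ℚ) < m₀ := by exact_mod_cast hm0
  have hmul : ∀ x y z : ℚ, Λ x y z → ∃ m : ℤ, x = m * ((m₀ : ℚ) / D) := by
    intro x y z hx
    obtain ⟨X, hX⟩ := hden x y z hx
    refine ⟨X / m₀, ?_⟩
    have hr0 : 0 ≤ X % m₀ := Int.emod_nonneg _ (by exact_mod_cast hm0.ne')
    have hr1 : X % m₀ < m₀ := Int.emod_lt_of_pos _ (by exact_mod_cast hm0)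
    have hr : X % m₀ = 0 := by
      by_contra hne
      obtain ⟨r, hr⟩ := Int.eq_ofNat_of_zero_le hr0
      have hrpos : 0 < r := by
        rcases Nat.eq_zero_or_pos r with h3 | h3
        · exact absurd (by rw [hr, h3]; rfl) hne
        · exact h3
      have hrlt : r < m₀ := by
        rw [hr] at hr1
        exact_mod_cast hr1
      refine hmin r hrlt ⟨hrpos, ?_⟩
      have := h.add hx (h.zsmul ht (-(X / m₀)))
      have e1 : x + ((-(X / m₀) : ℤ) : ℚ) * ((m₀ : ℚ) / D) = (r : ℚ) / D := by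
        have e2 : (X : ℚ) = m₀ * ((X / m₀ : ℤ) : ℚ) + r := by
          have := Int.mul_ediv_add_emod X m₀
          rw [hr] at this
          exact_mod_cast this.symm
        rw [hX, e2]
        push_cast
        field_simp
        ring
      rw [e1] at this
      exact ⟨_, _, this⟩
    have e2 : (X : ℚ) = m₀ * ((X / m₀ : ℤ) : ℚ) := by
      have := Int.mul_ediv_add_emod X m₀
      rw [hr, add_zero] at this
      exact_mod_cast this.symm
    rw [hX, e2]
    field_simp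
  obtain ⟨k', hk1⟩ := hmul _ _ _ h.e1
  have hk'q : (0 : ℚ) < k' := by
    by_contra h3
    have : (k' : ℚ) * ((m₀ : ℚ) / D) ≤ 0 :=
      mul_nonpos_of_nonpos_of_nonneg (not_lt.1 h3) (by positivity)
    linarith
  have hk' : 0 < k' := by exact_mod_cast hk'q
  have hg : (m₀ : ℚ) / D = 1 / k' := by
    field_simp
    field_simp at hk1
    linarith
  rw [hg] at ht
  have hgen : ∀ x y z : ℚ, Λ x y z → ∃ m : ℤ, x = m / k' := by
    intro x y z hx
    obtain ⟨m, hm⟩ := hmul x y z hx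
    exact ⟨m, by rw [hm, hg]; ring⟩
  have hor : (∃ m : ℤ, t₁ = m) ∨ ∃ m : ℤ, t₂ = m := by
    by_cases hk1' : k' = 1
    · left
      have := h.add ht (h.neg h.e1)
      rw [hk1'] at this
      have e1 : (1 : ℚ) / ((1 : ℤ) : ℚ) + -1 = 0 := by norm_num
      rw [e1] at this
      have h5 := (ints h hc he N1 this).1
      obtain ⟨m, hm⟩ := h5
      exact ⟨m, by linarith⟩
    · have hk2 : (1 : ℚ) < k' := by
        have : (1 : ℤ) < k' := by omega
        exact_mod_cast this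
      have h5 := h.shift ht 0 (-⌊t₁⌋) (-⌊t₂⌋)
      push_cast at h5
      rw [add_zero, ← sub_eq_add_neg, ← sub_eq_add_neg] at h5
      by_cases hf1 : t₁ - ⌊t₁⌋ = 0
      · exact Or.inl ⟨⌊t₁⌋, by linarith⟩
      · by_cases hf2 : t₂ - ⌊t₂⌋ = 0
        · exact Or.inr ⟨⌊t₂⌋, by linarith⟩
        · refine (N2 _ _ _ h5 (by positivity) ?_ ?_ ?_ ?_ ?_).elim
          · rw [div_lt_one hk'q]
            exact hk2
          · exact lt_of_le_of_ne (sub_nonneg.2 (Int.floor_le _)) (Ne.symm hf1)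
          · have := Int.lt_floor_add_one t₁
            linarith
          · exact lt_of_le_of_ne (sub_nonneg.2 (Int.floor_le _)) (Ne.symm hf2)
          · have := Int.lt_floor_add_one t₂
            linarith
  rcases hor with h5 | h5
  · exact last h hc he N1 n k β₁ β₂ hn hk h1 h2 hb hlt N3 k' hk' t₁ t₂ ht hgen h5
  · refine last h.swap he hc (fun y z h6 a1 a2 a3 a4 => N1 z y h6 a3 a4 a1 a2) n k β₂ β₁ hn hk h2 h1
      hb (by linarith) (fun x y z h6 a1 a2 a3 a4 a5 a6 => N3 x z y h6 a1 a2 a5 a6 a3 a4) k' hk'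
      t₂ t₁ ht (fun x y z h6 => hgen x z y h6) h5

/-- rational coordinates of the lattice points -/
def Lam {d : ℕ} (a c e : Fin d → ℤ) (x y z : ℚ) : Prop :=
  ∃ w : Fin d → ℤ, ∀ j, (w j : ℚ) = x * a j + y * c j + z * e j

lemma lam_lat {d : ℕ} (a c e : Fin d → ℤ) : Lat (Lam a c e) := by
  refine ⟨?_, ?_, ⟨a, fun j => by ring⟩, ⟨c, fun j => by ring⟩, ⟨e, fun j => by ring⟩⟩
  · rintro x y z x' y' z' ⟨w, hw⟩ ⟨w', hw'⟩
    refine ⟨w + w', fun j => ?_⟩
    rw [Pi.add_apply]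
    push_cast
    rw [hw, hw']
    ring
  · rintro x y z ⟨w, hw⟩
    refine ⟨-w, fun j => ?_⟩
    rw [Pi.neg_apply]
    push_cast
    rw [hw]
    ring

lemma num_eq (q : ℚ) : (q.num : ℚ) = q.den * q := by
  rw [mul_comm]
  exact (Rat.mul_den_eq_num q).symm

lemma prim {d : ℕ} (c : Fin d → ℤ) (hc : ∀ (j : ℤ) (w : Fin d → ℤ), c = j • w → IsUnit j)
    (y : ℚ) (hy : ∃ w : Fin d → ℤ, ∀ j, (w j : ℚ) = y * c j) : ∃ m : ℤ, y = m := by
  obtain ⟨w, hw⟩ := hy
  have hden : (y.den : ℚ) ≠ 0 := by exact_mod_cast y.den_nz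
  have h1 : ∀ j, (y.den : ℤ) ∣ c j := by
    intro j
    have h2 : w j * y.den = y.num * c j := by
      have h3 : (w j : ℚ) * y.den = y.num * c j := by
        rw [hw, num_eq]
        ring
      exact_mod_cast h3
    have h4 : (y.den : ℤ) ∣ y.num * c j := ⟨w j, by rw [← h2]; ring⟩
    have hcop : IsCoprime (y.den : ℤ) y.num := by
      rw [Int.isCoprime_iff_gcd_eq_one]
      have := y.reduced
      rw [Nat.Coprime, Nat.gcd_comm] at this
      rw [Int.gcd_eq_natAbs]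
      simpa using this
    exact hcop.dvd_of_dvd_mul_left h4
  choose u hu using h1
  have h5 := hc y.den u (funext fun j => by rw [hu j]; rfl)
  have h6 : y.den = 1 := by
    have := Int.isUnit_iff.1 h5
    omega
  refine ⟨y.num, ?_⟩
  exact ((Rat.den_eq_one_iff y).1 h6).symm

lemma exists_den {d : ℕ} (a c e : Fin d → ℤ)
    (hind : ∀ x y z : ℤ, x • a + y • c + z • e = 0 → x = 0 ∧ y = 0 ∧ z = 0) :
    ∃ D : ℕ, 0 < D ∧ ∀ x y z : ℚ, Lam a c e x y z → ∃ m : ℤ, x = m / D := by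
  classical
  let T : (Fin 3 → ℚ) →ₗ[ℚ] (Fin d → ℚ) :=
    { toFun := fun t j => t 0 * a j + t 1 * c j + t 2 * e j
      map_add' := fun s t => by
        funext j
        simp only [Pi.add_apply]
        ring
      map_smul' := fun r t => by
        funext j
        simp only [Pi.smul_apply, smul_eq_mul, RingHom.id_apply]
        ring }
  have hT : LinearMap.ker T = ⊥ := by
    rw [LinearMap.ker_eq_bot']
    intro t ht
    have key : ∀ j, t 0 * a j + t 1 * c j + t 2 * e j = 0 := fun j => congrFun ht j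
    let M : ℤ := (t 0).den * (t 1).den * (t 2).den
    have hM : (M : ℚ) ≠ 0 := by
      have : ((t 0).den * (t 1).den * (t 2).den : ℕ) ≠ 0 :=
        mul_ne_zero (mul_ne_zero (t 0).den_nz (t 1).den_nz) (t 2).den_nz
      show (((t 0).den * (t 1).den * (t 2).den : ℤ) : ℚ) ≠ 0
      exact_mod_cast this
    have e0 : (((t 0).num * (t 1).den * (t 2).den : ℤ) : ℚ) = M * t 0 := by
      show (((t 0).num * (t 1).den * (t 2).den : ℤ) : ℚ) =
        (((t 0).den * (t 1).den * (t 2).den : ℤ) : ℚ) * t 0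
      have h3 : ((t 0).num : ℚ) = (t 0).den * t 0 := num_eq _
      push_cast
      rw [h3]
      ring
    have e1 : (((t 0).den * (t 1).num * (t 2).den : ℤ) : ℚ) = M * t 1 := by
      show (((t 0).den * (t 1).num * (t 2).den : ℤ) : ℚ) =
        (((t 0).den * (t 1).den * (t 2).den : ℤ) : ℚ) * t 1
      have h3 : ((t 1).num : ℚ) = (t 1).den * t 1 := num_eq _
      push_cast
      rw [h3]
      ring
    have e2 : (((t 0).den * (t 1).den * (t 2).num : ℤ) : ℚ) = M * t 2 := by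
      show (((t 0).den * (t 1).den * (t 2).num : ℤ) : ℚ) =
        (((t 0).den * (t 1).den * (t 2).den : ℤ) : ℚ) * t 2
      have h3 : ((t 2).num : ℚ) = (t 2).den * t 2 := num_eq _
      push_cast
      rw [h3]
      ring
    have h5 := hind ((t 0).num * (t 1).den * (t 2).den) ((t 0).den * (t 1).num * (t 2).den)
      ((t 0).den * (t 1).den * (t 2).num) (by
        funext j
        simp only [Pi.add_apply, Pi.smul_apply, smul_eq_mul, Pi.zero_apply]
        have : ((((t 0).num * (t 1).den * (t 2).den) * a j + ((t 0).den * (t 1).num * (t 2).den) * c j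
          + ((t 0).den * (t 1).den * (t 2).num) * e j : ℤ) : ℚ) = 0 := by
          rw [Int.cast_add, Int.cast_add, Int.cast_mul _ (a j), Int.cast_mul _ (c j),
            Int.cast_mul _ (e j), e0, e1, e2]
          have := key j
          linear_combination (M : ℚ) * this
        exact_mod_cast this)
    rw [h5.1] at e0
    rw [h5.2.1] at e1
    rw [h5.2.2] at e2
    have z : ∀ r : ℚ, (((0 : ℤ)) : ℚ) = M * r → r = 0 := by
      intro r hr
      rw [Int.cast_zero] at hr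
      rcases mul_eq_zero.1 hr.symm with h | h
      · exact absurd h hM
      · exact h
    funext i
    fin_cases i
    · exact z _ e0
    · exact z _ e1
    · exact z _ e2
  obtain ⟨G, hG⟩ := LinearMap.exists_leftInverse_of_injective T hT
  let g : Fin d → ℚ := fun j => G (Pi.single j 1) 0
  refine ⟨∏ j, (g j).den, Finset.prod_pos fun j _ => (g j).den_pos, ?_⟩
  rintro x y z ⟨w, hw⟩
  have h1 : T ![x, y, z] = fun j => (w j : ℚ) := by
    funext j
    show x * a j + y * c j + z * e j = w j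
    exact (hw j).symm
  have h2 : G (fun j => (w j : ℚ)) = ![x, y, z] := by
    rw [← h1]
    exact congrArg (fun f : (Fin 3 → ℚ) →ₗ[ℚ] (Fin 3 → ℚ) => f ![x, y, z]) hG
  have h3 : x = ∑ j, (w j : ℚ) * g j := by
    have h4 : (fun j => (w j : ℚ)) = ∑ j, (w j : ℚ) • (Pi.single j 1 : Fin d → ℚ) := by
      funext i
      rw [Finset.sum_apply]
      simp only [Pi.smul_apply, smul_eq_mul, Pi.single_apply, mul_ite, mul_one, mul_zero]
      rw [Finset.sum_ite_eq]
      simp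
    have h5 : x = G (fun j => (w j : ℚ)) 0 := by rw [h2]; rfl
    rw [h5, h4, map_sum, Finset.sum_apply]
    refine Finset.sum_congr rfl fun j _ => ?_
    rw [map_smul, Pi.smul_apply, smul_eq_mul]
  have hP : ((∏ j, (g j).den : ℕ) : ℚ) ≠ 0 := by
    have : (∏ j, (g j).den) ≠ 0 := Finset.prod_ne_zero_iff.2 fun j _ => (g j).den_nz
    exact_mod_cast this
  have h6 : ∀ j, ∃ m : ℤ, ((∏ j, (g j).den : ℕ) : ℚ) * g j = m := by
    intro j
    obtain ⟨s, hs⟩ := Finset.dvd_prod_of_mem (fun j => (g j).den) (Finset.mem_univ j)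
    refine ⟨s * (g j).num, ?_⟩
    have h7 : ((g j).num : ℚ) = (g j).den * g j := num_eq _
    rw [hs]
    push_cast
    rw [h7]
    ring
  choose m hm using h6
  refine ⟨∑ j, w j * m j, ?_⟩
  rw [eq_div_iff hP, h3, Finset.sum_mul]
  push_cast
  refine Finset.sum_congr rfl fun j _ => ?_
  have := hm j
  push_cast at this ⊢
  rw [← this]
  ring

/-- the case `n + k > β₁ + β₂` -/
lemma side {d : ℕ} (a b c e : Fin d → ℤ) (n k β₁ β₂ : ℤ) (hn : 0 < n) (hk : 0 < k) (h1 : 0 < β₁)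
    (h2 : 0 < β₂) (hrel : n • a + k • b = β₁ • c + β₂ • e)
    (hc : ∀ (j : ℤ) (w : Fin d → ℤ), c = j • w → IsUnit j)
    (he : ∀ (j : ℤ) (w : Fin d → ℤ), e = j • w → IsUnit j)
    (hind : ∀ x y z : ℤ, x • a + y • c + z • e = 0 → x = 0 ∧ y = 0 ∧ z = 0)
    (hlt : β₁ + β₂ < n + k) :
    ∃ (w : Fin d → ℤ) (y₁ y₂ y₃ y₄ : ℚ), 0 ≤ y₁ ∧ 0 ≤ y₂ ∧ 0 ≤ y₃ ∧ 0 ≤ y₄ ∧
      y₁ + y₂ + y₃ + y₄ ≤ 3 / 2 ∧ (0 < y₃ ∧ 0 < y₄) ∧
      ∀ j, (w j : ℚ) = y₁ * a j + y₂ * b j + y₃ * c j + y₄ * e j := by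
  by_contra hno
  have hkq : (k : ℚ) ≠ 0 := by exact_mod_cast hk.ne'
  have hrelj : ∀ j, (n : ℚ) * a j + k * b j = β₁ * c j + β₂ * e j := by
    intro j
    have := congrFun hrel j
    simp only [Pi.add_apply, Pi.smul_apply, smul_eq_mul] at this
    exact_mod_cast this
  have hbj : ∀ j, (b j : ℚ) = -(n : ℚ) / k * a j + β₁ / k * c j + β₂ / k * e j := by
    intro j
    have := hrelj j
    field_simp
    linarith
  obtain ⟨D, hD, hden⟩ := exists_den a c e hind
  refine core (lam_lat a c e) D hD hden ?_ ?_ ?_ ?_ n k β₁ β₂ hn hk h1 h2 ⟨b, hbj⟩ hlt ?_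
  · rintro y ⟨w, hw⟩
    exact prim c hc y ⟨w, fun j => by rw [hw]; ring⟩
  · rintro y ⟨w, hw⟩
    exact prim e he y ⟨w, fun j => by rw [hw]; ring⟩
  · rintro y z ⟨w, hw⟩ y0 y1 z0 z1
    rcases le_total (y + z) 1 with h | h
    · exact hno ⟨w, 0, 0, y, z, le_refl _, le_refl _, y0.le, z0.le, by linarith, ⟨y0, z0⟩,
        fun j => by rw [hw]; ring⟩
    · refine hno ⟨c + e - w, 0, 0, 1 - y, 1 - z, le_refl _, le_refl _, by linarith, by linarith,
        by linarith, ⟨by linarith, by linarith⟩, fun j => ?_⟩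
      rw [Pi.sub_apply, Pi.add_apply]
      push_cast
      rw [hw]
      ring
  · rintro x y z ⟨w, hw⟩ x0 x1 y0 y1 z0 z1
    rcases le_total (x + y + z) (3 / 2) with h | h
    · exact hno ⟨w, x, 0, y, z, x0.le, le_refl _, y0.le, z0.le, by linarith, ⟨y0, z0⟩,
        fun j => by rw [hw]; ring⟩
    · refine hno ⟨a + c + e - w, 1 - x, 0, 1 - y, 1 - z, by linarith, le_refl _, by linarith,
        by linarith, by linarith, ⟨by linarith, by linarith⟩, fun j => ?_⟩
      rw [Pi.sub_apply, Pi.add_apply, Pi.add_apply]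
      push_cast
      rw [hw]
      ring
  · rintro x y z ⟨w, hw⟩ x0 x1 y0 y1 z0 z1
    have hw' : ∀ j, (w j : ℚ) = x * b j + y * c j + z * e j := by
      intro j
      rw [hw, hbj]
      ring
    rcases le_total (x + y + z) (3 / 2) with h | h
    · exact hno ⟨w, 0, x, y, z, le_refl _, x0.le, y0.le, z0.le, by linarith, ⟨y0, z0⟩,
        fun j => by rw [hw']; ring⟩
    · refine hno ⟨b + c + e - w, 0, 1 - x, 1 - y, 1 - z, le_refl _, by linarith, by linarith,
        by linarith, by linarith, ⟨by linarith, by linarith⟩, fun j => ?_⟩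
      rw [Pi.sub_apply, Pi.add_apply, Pi.add_apply]
      push_cast
      rw [hw']
      ring

theorem cir : Pool.Agent.H867.FT.S_CIR := by
  intro d a b c e n k β₁ β₂ hn hk h1 h2 hrel ha hb hc he hind hne
  rcases lt_or_gt_of_ne hne with hlt | hlt
  · have hind' : ∀ x y z : ℤ, x • c + y • a + z • b = 0 → x = 0 ∧ y = 0 ∧ z = 0 := by
      intro x y z hxyz
      have h3 : (k * y - n * z) • a + (k * x + z * β₁) • c + (z * β₂) • e = 0 := by
        funext j
        have e1 := congrFun hxyz j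
        have e2 := congrFun hrel j
        simp only [Pi.add_apply, Pi.smul_apply, smul_eq_mul, Pi.zero_apply] at e1 e2 ⊢
        linear_combination k * e1 - z * e2
      obtain ⟨g1, g2, g3⟩ := hind _ _ _ h3
      have z0 : z = 0 := by
        rcases mul_eq_zero.1 g3 with h | h
        · exact h
        · omega
      rw [z0] at g1 g2
      have y0 : y = 0 := by
        rcases mul_eq_zero.1 (by linarith : k * y = 0) with h | h
        · omega
        · exact h
      have x0 : x = 0 := by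
        rcases mul_eq_zero.1 (by linarith : k * x = 0) with h | h
        · omega
        · exact h
      exact ⟨x0, y0, z0⟩
    obtain ⟨w, y₁, y₂, y₃, y₄, a1, a2, a3, a4, a5, a6, a7⟩ :=
      side c e a b β₁ β₂ n k h1 h2 hn hk hrel.symm ha hb hind' hlt
    exact ⟨w, y₃, y₄, y₁, y₂, a3, a4, a1, a2, by linarith, Or.inl a6, fun j => by rw [a7]; ring⟩
  · obtain ⟨w, y₁, y₂, y₃, y₄, a1, a2, a3, a4, a5, a6, a7⟩ :=
      side a b c e n k β₁ β₂ hn hk h1 h2 hrel hc he hind hlt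
    exact ⟨w, y₁, y₂, y₃, y₄, a1, a2, a3, a4, a5, Or.inr a6, a7⟩

end Pool.Agent.H728.FT867
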