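import Pool.Agent.H770.GS.TB

/-!
# Project TB, TB6: the tangent inequality
-/

set_option autoImplicit false

open MeasureTheory Set intervalIntegral Filter Topology

namespace Pool.Agent.H728.TBd2

open Pool.Agent.H770.GS

theorem mono_of {f f' : ℝ → ℝ} {a b : ℝ} (hab : a ≤ b)
    (hd : ∀ x ∈ Icc a b, HasDerivAt f (f' x) x) (h0 : ∀ x ∈ Icc a b, 0 ≤ f' x) : f a ≤ f b := by
  have hm : MonotoneOn f (Icc a b) := by
    refine monotoneOn_of_deriv_nonneg (convex_Icc a b) ?_ ?_ ?_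
    · exact fun x hx => (hd x hx).continuousAt.continuousWithinAt
    · intro x hx
      rw [interior_Icc] at hx
      exact (hd x (Ioo_subset_Icc_self hx)).differentiableAt.differentiableWithinAt
    · intro x hx
      rw [interior_Icc] at hx
      rw [(hd x (Ioo_subset_Icc_self hx)).deriv]
      exact h0 x (Ioo_subset_Icc_self hx)
  exact hm (left_mem_Icc.2 hab) (right_mem_Icc.2 hab) hab

theorem I2_nonpos {q : ℝ} (hq : q ≤ 0) : I2 q ≤ 0 := by
  unfold I2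
  rw [intervalIntegral.integral_symm]
  have : 0 ≤ ∫ p in q..(-q), Real.exp (-p ^ 2) :=
    intervalIntegral.integral_nonneg (by linarith) fun p _ => (Real.exp_pos _).le
  linarith

theorem fL_nonpos {r z : ℝ} (hz : 2 * r ≤ z) : fL r z ≤ 0 := by
  unfold fL
  exact mul_nonpos_of_nonneg_of_nonpos (Real.exp_pos _).le (I2_nonpos (by linarith))

theorem fL_end (r : ℝ) : fL r (2 * r) = 0 := by
  unfold fL
  rw [show r - 2 * r / 2 = 0 by ring, I2_zero, mul_zero]

theorem pt_in {r x : ℝ} (h0 : 0 ≤ x) (h : x ≤ 2 * r) : pt r x = fL r x := by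
  unfold pt
  rw [abs_of_nonneg h0, max_eq_left (fL_nonneg h)]

theorem pt_out {r x : ℝ} (h0 : 0 ≤ x) (h : 2 * r ≤ x) : pt r x = 0 := by
  unfold pt
  rw [abs_of_nonneg h0, max_eq_right (fL_nonpos h)]

/-- the inequality `G ≥ 0` -/
theorem G_nonneg (hS : S_shape) {r q x₀ x : ℝ} (hr : 0 < r) (hr2 : r ^ 2 ≤ 9 / 4) (hq : 0 ≤ q)
    (hq' : q ≤ 1 / 3) (hx₀ : 0 < x₀) (hx₀r : x₀ ≤ r) (hx : x₀ ≤ x) (hx2 : x ≤ 2 * r) :
    q * fL r x₀ - x₀ * nL r x₀ + nE r q x₀ / x₀ * (x₀ ^ 2 / 2) ≤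
      q * fL r x - x * nL r x + nE r q x₀ / x₀ * (x ^ 2 / 2) := by
  have h4 := (hS r q hr hr2 hq hq').2.2.2
  refine mono_of (f := fun x => q * fL r x - x * nL r x + nE r q x₀ / x₀ * (x ^ 2 / 2))
    (f' := fun x => -nE r q x + nE r q x₀ / x₀ * x) hx ?_ ?_
  · intro t _
    have h1 : HasDerivAt (nL r) (nLd r t) t := nL_deriv r t
    have h2 := ((fL_deriv r t).const_mul q).sub ((hasDerivAt_id t).mul h1)
    have h3 : HasDerivAt (fun x : ℝ => nE r q x₀ / x₀ * (x ^ 2 / 2)) (nE r q x₀ / x₀ * t) t := by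
      refine (((hasDerivAt_pow 2 t).div_const 2).const_mul _).congr_deriv ?_
      norm_num
    refine (h2.add h3).congr_deriv ?_
    unfold nE
    simp only [id]
    ring
  · intro t ht
    have ht0 : 0 < t := hx₀.trans_le ht.1
    have h5 := h4 x₀ t hx₀ hx₀r ht.1 (ht.2.trans hx2)
    have h6 : nE r q t ≤ nE r q x₀ / x₀ * t := by
      rwa [div_le_iff₀ ht0] at h5
    show 0 ≤ -nE r q t + nE r q x₀ / x₀ * t
    linarith

theorem der_nonneg {lam M g g' q : ℝ} (hl : 0 < lam) (hM : 0 < M) (hMM : M * M = 2 + lam ^ 2)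
    (hq : q * (2 + lam ^ 2) = lam ^ 2) (h : 0 ≤ q * g + lam * g') :
    0 ≤ lam / M * g + M * g' := by
  have h1 : lam / M * g + M * g' = (lam * g + (2 + lam ^ 2) * g') / M := by
    rw [← hMM]
    field_simp
  rw [h1]
  refine div_nonneg ?_ hM.le
  have h2 : lam * (lam * g + (2 + lam ^ 2) * g') = (2 + lam ^ 2) * (q * g + lam * g') := by
    linear_combination (-g) * hq
  have h3 : 0 ≤ lam * (lam * g + (2 + lam ^ 2) * g') := by
    rw [h2]
    positivity
  exact nonneg_of_mul_nonneg_right h3 hl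

theorem M_deriv (lam : ℝ) :
    HasDerivAt (fun l : ℝ => Real.sqrt (2 + l ^ 2)) (lam / Real.sqrt (2 + lam ^ 2)) lam := by
  have h1 : HasDerivAt (fun l : ℝ => 2 + l ^ 2) (2 * lam) lam := by
    refine ((hasDerivAt_pow 2 lam).const_add 2).congr_deriv ?_
    norm_num
  have h2 := h1.sqrt (by positivity)
  refine h2.congr_deriv ?_
  field_simp

/-- the common part of the two functions -/
noncomputable def g2 (r y l : ℝ) : ℝ :=
  -fL r (l * r) + l * nL r (l * r) * ((y ^ 2 - r ^ 2) / (2 * r))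

noncomputable def g2d (r y l : ℝ) : ℝ :=
  nL r (l * r) * r + (nL r (l * r) + l * (nLd r (l * r) * r)) * ((y ^ 2 - r ^ 2) / (2 * r))

theorem comp_mul {f : ℝ → ℝ} {f' c l : ℝ} (h : HasDerivAt f f' (l * c)) :
    HasDerivAt (fun l => f (l * c)) (f' * c) l := by
  have h0 : HasDerivAt (fun l : ℝ => l * c) c l := by simpa using (hasDerivAt_id l).mul_const c
  exact HasDerivAt.comp (h₂ := f) l h h0

theorem g2_deriv (r y lam : ℝ) : HasDerivAt (g2 r y) (g2d r y lam) lam := by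
  have h1 : HasDerivAt (fun l : ℝ => fL r (l * r)) (-nL r (lam * r) * r) lam :=
    comp_mul (fL_deriv r (lam * r))
  have h2' : HasDerivAt (nL r) (nLd r (lam * r)) (lam * r) := nL_deriv r (lam * r)
  have h2 : HasDerivAt (fun l : ℝ => nL r (l * r)) (nLd r (lam * r) * r) lam := comp_mul h2'
  have h3 := h1.fun_neg.add (((hasDerivAt_id lam).mul h2).mul_const ((y ^ 2 - r ^ 2) / (2 * r)))
  refine h3.congr_deriv ?_
  unfold g2d
  simp only [id]
  ring

theorem q_spec {lam : ℝ} (h : 0 < lam) (h1 : lam ≤ 1) : 0 ≤ lam ^ 2 / (2 + lam ^ 2) ∧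
    lam ^ 2 / (2 + lam ^ 2) ≤ 1 / 3 ∧ lam ^ 2 / (2 + lam ^ 2) * (2 + lam ^ 2) = lam ^ 2 := by
  have h2 : 0 < 2 + lam ^ 2 := by positivity
  refine ⟨by positivity, ?_, div_mul_cancel₀ _ h2.ne'⟩
  rw [div_le_div_iff₀ h2 (by norm_num)]
  nlinarith

/-- the identity for the second part -/
theorem g2_id {r y lam q : ℝ} (hr : 0 < r) :
    q * g2 r y lam + lam * g2d r y lam =
      -(q * fL r (lam * r) - lam * r * nL r (lam * r)) +
        nE r q (lam * r) / (lam * r) * (((lam * y) ^ 2 - (lam * r) ^ 2) / 2) := by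
  unfold g2 g2d nE
  field_simp
  ring

/-- monotonicity of the first function -/
theorem H1_mono (hS : S_shape) {r y l1 l2 : ℝ} (hr : 0 < r) (hr2 : r ^ 2 ≤ 9 / 4) (hy : r ≤ y)
    (h1 : 0 < l1) (h12 : l1 ≤ l2) (h2 : l2 ≤ 1) (h2y : l2 * y ≤ 2 * r) :
    Real.sqrt (2 + l1 ^ 2) * (fL r (l1 * y) + g2 r y l1) ≤
      Real.sqrt (2 + l2 ^ 2) * (fL r (l2 * y) + g2 r y l2) := by
  refine mono_of (f := fun l => Real.sqrt (2 + l ^ 2) * (fL r (l * y) + g2 r y l))
    (f' := fun l => l / Real.sqrt (2 + l ^ 2) * (fL r (l * y) + g2 r y l) +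
      Real.sqrt (2 + l ^ 2) * (-nL r (l * y) * y + g2d r y l)) h12 ?_ ?_
  · intro l _
    have h3 : HasDerivAt (fun l : ℝ => fL r (l * y)) (-nL r (l * y) * y) l :=
      comp_mul (fL_deriv r (l * y))
    exact (M_deriv l).mul (h3.add (g2_deriv r y l))
  · intro l hl
    have hl0 : 0 < l := h1.trans_le hl.1
    have hl1 : l ≤ 1 := hl.2.trans h2
    obtain ⟨hq, hq', hq2⟩ := q_spec hl0 hl1
    have hM : 0 < Real.sqrt (2 + l ^ 2) := Real.sqrt_pos.2 (by positivity)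
    refine der_nonneg hl0 hM (Real.mul_self_sqrt (by positivity)) hq2 ?_
    have hy0 : 0 < y := hr.trans_le hy
    have hG := G_nonneg hS hr hr2 hq hq' (mul_pos hl0 hr) (show l * r ≤ r by nlinarith)
      (show l * r ≤ l * y by nlinarith) (show l * y ≤ 2 * r by nlinarith [hl.2])
    have hid := g2_id (y := y) (q := l ^ 2 / (2 + l ^ 2)) (lam := l) hr
    have e : l ^ 2 / (2 + l ^ 2) * (fL r (l * y) + g2 r y l) + l * (-nL r (l * y) * y + g2d r y l) =
        (l ^ 2 / (2 + l ^ 2) * fL r (l * y) - l * y * nL r (l * y)) +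
          (l ^ 2 / (2 + l ^ 2) * g2 r y l + l * g2d r y l) := by ring
    rw [e, hid]
    linarith

/-- monotonicity of the second function -/
theorem H2_mono (hS : S_shape) {r y l1 l2 : ℝ} (hr : 0 < r) (hr2 : r ^ 2 ≤ 9 / 4) (hy : r ≤ y)
    (h1 : 0 < l1) (h12 : l1 ≤ l2) (h2 : l2 ≤ 1) (h1y : 2 * r ≤ l1 * y) :
    Real.sqrt (2 + l1 ^ 2) * g2 r y l1 ≤ Real.sqrt (2 + l2 ^ 2) * g2 r y l2 := by
  refine mono_of (f := fun l => Real.sqrt (2 + l ^ 2) * g2 r y l)
    (f' := fun l => l / Real.sqrt (2 + l ^ 2) * g2 r y l +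
      Real.sqrt (2 + l ^ 2) * g2d r y l) h12 ?_ ?_
  · intro l _
    exact (M_deriv l).mul (g2_deriv r y l)
  · intro l hl
    have hl0 : 0 < l := h1.trans_le hl.1
    have hl1 : l ≤ 1 := hl.2.trans h2
    obtain ⟨hq, hq', hq2⟩ := q_spec hl0 hl1
    have hM : 0 < Real.sqrt (2 + l ^ 2) := Real.sqrt_pos.2 (by positivity)
    refine der_nonneg hl0 hM (Real.mul_self_sqrt (by positivity)) hq2 ?_
    have hy0 : 0 < y := hr.trans_le hy
    have hlr : l * r ≤ r := by nlinarith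
    have hG := G_nonneg hS hr hr2 hq hq' (mul_pos hl0 hr) hlr
      (show l * r ≤ 2 * r by linarith) le_rfl
    rw [g2_id (y := y) (q := l ^ 2 / (2 + l ^ 2)) (lam := l) hr]
    rw [fL_end, mul_zero] at hG
    have hnE : 0 < nE r (l ^ 2 / (2 + l ^ 2)) (l * r) :=
      (hS r _ hr hr2 hq hq').2.1 _ (by positivity) hlr
    have hN : 0 ≤ nE r (l ^ 2 / (2 + l ^ 2)) (l * r) / (l * r) := by positivity
    have hly : 2 * r ≤ l * y := by nlinarith [hl.1]
    have h5 : (2 * r) ^ 2 ≤ (l * y) ^ 2 := by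
      apply pow_le_pow_left₀ (by positivity) hly
    have h6 : nE r (l ^ 2 / (2 + l ^ 2)) (l * r) / (l * r) * ((2 * r) ^ 2 / 2) ≤
        nE r (l ^ 2 / (2 + l ^ 2)) (l * r) / (l * r) * ((l * y) ^ 2 / 2) := by
      apply mul_le_mul_of_nonneg_left _ hN
      linarith
    have h7 : 0 ≤ 2 * r * nL r (2 * r) :=
      mul_nonneg (by positivity) (nL_nonneg (by positivity) le_rfl)
    linarith

theorem H_mono (hS : S_shape) {r y l1 l2 : ℝ} (hr : 0 < r) (hr2 : r ^ 2 ≤ 9 / 4) (hy : r ≤ y)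
    (h1 : 0 < l1) (h12 : l1 ≤ l2) (h2 : l2 ≤ 1) :
    Real.sqrt (2 + l1 ^ 2) * (pt r (l1 * y) + g2 r y l1) ≤
      Real.sqrt (2 + l2 ^ 2) * (pt r (l2 * y) + g2 r y l2) := by
  have hy0 : 0 < y := hr.trans_le hy
  have h20 : 0 < l2 := h1.trans_le h12
  rcases le_total (l2 * y) (2 * r) with hA | hA
  · rw [pt_in (by positivity) hA, pt_in (by positivity)
      (show l1 * y ≤ 2 * r by nlinarith)]
    exact H1_mono hS hr hr2 hy h1 h12 h2 hA
  rcases le_total (2 * r) (l1 * y) with hB | hB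
  · rw [pt_out (by positivity) hA, pt_out (by positivity) hB, zero_add, zero_add]
    exact H2_mono hS hr hr2 hy h1 h12 h2 hB
  · rw [pt_out (by positivity) hA, pt_in (by positivity) hB, zero_add]
    have e : 2 * r / y * y = 2 * r := div_mul_cancel₀ _ hy0.ne'
    have hC : l1 ≤ 2 * r / y := by rwa [le_div_iff₀ hy0]
    have hD : 2 * r / y ≤ l2 := by rwa [div_le_iff₀ hy0]
    have h3 := H1_mono hS hr hr2 hy h1 hC (hD.trans h2) e.le
    have h4 := H2_mono hS hr hr2 hy (h1.trans_le hC) hD h2 e.ge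
    rw [e, fL_end, zero_add] at h3
    exact h3.trans h4

theorem d2 : S_d2 := by
  intro hS r s1 s2 hr hr2 hs1 hs12 hs2 y hy
  have h := H_mono hS hr hr2 hy (Real.sqrt_pos.2 hs1) (Real.sqrt_le_sqrt hs12.le)
    (Real.sqrt_le_one.2 hs2)
  rw [Real.sq_sqrt hs1.le, Real.sq_sqrt (hs1.trans hs12).le] at h
  have h20 : 0 < s2 := hs1.trans hs12
  have e1 : pt r (Real.sqrt s1 * r) = fL r (Real.sqrt s1 * r) := by
    refine pt_in (by positivity) ?_
    have : Real.sqrt s1 ≤ 1 := Real.sqrt_le_one.2 (hs12.le.trans hs2)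
    nlinarith
  have e2 : pt r (Real.sqrt s2 * r) = fL r (Real.sqrt s2 * r) := by
    refine pt_in (by positivity) ?_
    have : Real.sqrt s2 ≤ 1 := Real.sqrt_le_one.2 hs2
    nlinarith
  unfold dD dm
  rw [e1, e2]
  unfold g2 at h
  have e3 : -(Real.sqrt (2 + s2) * Real.sqrt s2 * nL r (Real.sqrt s2 * r) -
      Real.sqrt (2 + s1) * Real.sqrt s1 * nL r (Real.sqrt s1 * r)) / (2 * r) * (y ^ 2 - r ^ 2) =
      -(Real.sqrt (2 + s2) * (Real.sqrt s2 * nL r (Real.sqrt s2 * r) *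
        ((y ^ 2 - r ^ 2) / (2 * r)))) + Real.sqrt (2 + s1) * (Real.sqrt s1 *
          nL r (Real.sqrt s1 * r) * ((y ^ 2 - r ^ 2) / (2 * r))) := by
    ring
  rw [e3]
  linarith

end Pool.Agent.H728.TBd2
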